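import Pool.Agent.Helper62.SGB.EPHI
import Pool.Agent.Helper12.SG.GoalsE

/-!
# Packet SGB-ECOEF (MP_a41896_nt): the coefficients of the laws
-/

set_option autoImplicit false

open MvPolynomial

namespace Pool.Agent.Helper12.SGB

open WeierstrassCurve Height Height.AdmissibleAbsValues
open Pool.Agent.Helper29.BL Pool.Agent.Helper92.Ru Pool.Agent.Helper42.SG
open Pool.Agent.Helper12.SG Pool.Agent.Helper62.SGB

noncomputable section

section frame

variable {K : Type} [Field K] {v : AbsoluteValue K ℝ} {A : Type} [CommRing A] [Algebra K A]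
  {N : A → ℝ → Prop}

lemma nfr_one (hN : NFr v N) : N 1 1 := by
  have := hN.const 1
  simpa using this

lemma nfr_zero (hN : NFr v N) : N 0 0 := by
  have := hN.const 0
  simpa using this

lemma nfr_pow (hN : NFr v N) {f : A} {S : ℝ} (h : N f S) (k : ℕ) : N (f ^ k) (S ^ k) := by
  induction k with
  | zero => simpa using nfr_one hN
  | succ k ih => rw [pow_succ, pow_succ]; exact hN.mul _ _ _ _ ih h

lemma nfr_add_cst (hN : NFr v N) {f g : A} {T m n : ℝ} (hf : N f (cst v m * T))
    (hg : N g (cst v n * T)) : N (f + g) (cst v (m + n) * T) := by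
  by_cases hv : IsNonarchimedean v
  · rw [cst_of_nonarch hv] at *
    simpa using hN.max hv _ _ _ _ hf hg
  · rw [cst_of_not_nonarch hv] at *
    have := hN.add _ _ _ _ hf hg
    rw [add_mul]
    exact this

lemma v_nat_le (v : AbsoluteValue K ℝ) (n : ℕ) : v (n : K) ≤ cst v n := by
  by_cases hv : IsNonarchimedean v
  · rw [cst_of_nonarch hv]
    exact hv.apply_natCast_le_one
  · rw [cst_of_not_nonarch hv]
    exact v.apply_nat_le_self n

lemma nfr_nat (hN : NFr v N) (n : ℕ) : N (n : A) (cst v n) := by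
  have h := hN.mono _ _ _ (hN.const (n : K)) (v_nat_le v n)
  simpa using h

lemma bf_le (hN : NFr v N) (W : Affine K) {x : A} {a : ℝ} (ha : 1 ≤ a) (hx : N x a) :
    N (Bf (W.map (algebraMap K A)) x) (cst v 8 * (bet W v * a ^ 3)) := by
  have ha0 : 0 ≤ a := zero_le_one.trans ha
  have hb2 : N (algebraMap K A W.b₂) (bet W v) :=
    hN.mono _ _ _ (hN.const _) (by simp [bet])
  have hb4 : N (algebraMap K A W.b₄) (bet W v) :=
    hN.mono _ _ _ (hN.const _) (by simp [bet])
  have hb6 : N (algebraMap K A W.b₆) (bet W v) :=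
    hN.mono _ _ _ (hN.const _) (by simp [bet])
  have hbe : 1 ≤ bet W v := one_le_bet W v
  have hbe0 : 0 ≤ bet W v := zero_le_one.trans hbe
  have t1 : N ((4 : A) * x ^ 3) (cst v 4 * (bet W v * a ^ 3)) := by
    have h4 := nfr_nat hN (A := A) 4
    have := hN.mul _ _ _ _ h4 (nfr_pow hN hx 3)
    push_cast at this
    refine hN.mono _ _ _ this ?_
    have : 0 ≤ cst v (4 : ℝ) := (cst_pos v (by norm_num)).le
    apply mul_le_mul_of_nonneg_left _ this
    have : 0 ≤ a ^ 3 := by positivity
    nlinarith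
  have t2 : N (algebraMap K A W.b₂ * x ^ 2) (cst v 1 * (bet W v * a ^ 3)) := by
    have := hN.mul _ _ _ _ hb2 (nfr_pow hN hx 2)
    refine hN.mono _ _ _ this ?_
    have h1 : cst v (1 : ℝ) = 1 := by unfold cst; split_ifs <;> rfl
    rw [h1, one_mul]
    apply mul_le_mul_of_nonneg_left _ hbe0
    exact pow_le_pow_right₀ ha (by norm_num)
  have t3 : N ((2 : A) * algebraMap K A W.b₄ * x) (cst v 2 * (bet W v * a ^ 3)) := by
    have h2 := nfr_nat hN (A := A) 2
    have := hN.mul _ _ _ _ (hN.mul _ _ _ _ h2 hb4) hx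
    push_cast at this
    refine hN.mono _ _ _ this ?_
    have : 0 ≤ cst v (2 : ℝ) := (cst_pos v (by norm_num)).le
    rw [mul_assoc]
    apply mul_le_mul_of_nonneg_left _ this
    apply mul_le_mul_of_nonneg_left _ hbe0
    exact le_self_pow₀ ha (by norm_num)
  have t4 : N (algebraMap K A W.b₆) (cst v 1 * (bet W v * a ^ 3)) := by
    refine hN.mono _ _ _ hb6 ?_
    have h1 : cst v (1 : ℝ) = 1 := by unfold cst; split_ifs <;> rfl
    rw [h1, one_mul]
    have : 1 ≤ a ^ 3 := one_le_pow₀ ha
    nlinarith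
  have s := nfr_add_cst hN (nfr_add_cst hN (nfr_add_cst hN t1 t2) t3) t4
  norm_num at s
  simpa [Bf] using s

end frame

section quad

variable {K : Type} [Field K]

lemma nmp_nfr (h1 : NPSF) (v : AbsoluteValue K ℝ) {a b : ℝ} (ha : 1 ≤ a) (hb : 1 ≤ b) :
    NFr v (NMP v a b) := by
  have h := h1 K v (Fin 2) ![a, b] (by
    intro i
    fin_cases i
    · simpa using lt_of_lt_of_le one_pos ha
    · simpa using lt_of_lt_of_le one_pos hb)
  refine ⟨?_, ?_, ?_, ?_, ?_, ?_⟩
  · intro k
    have := h.const k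
    unfold NMP
    rw [MvPolynomial.algebraMap_eq, MvPolynomial.coe_C]
    rwa [MvPowerSeries.algebraMap_apply, Algebra.algebraMap_self_apply] at this
  · intro f g S T hf hg
    unfold NMP at *
    rw [MvPolynomial.coe_mul]
    exact h.mul _ _ _ _ hf hg
  · intro f g S T hf hg
    unfold NMP at *
    rw [MvPolynomial.coe_add]
    exact h.add _ _ _ _ hf hg
  · intro hv f g S T hf hg
    unfold NMP at *
    rw [MvPolynomial.coe_add]
    exact h.max hv _ _ _ _ hf hg
  · intro f S T hf hST
    exact h.mono _ _ _ hf hST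
  · intro f T hf
    exact h.nonneg _ _ hf

lemma rpw_single {σ : Type} (r : σ → ℝ) (i : σ) (k : ℕ) : rpw r (Finsupp.single i k) = r i ^ k := by
  simp [rpw]

lemma nmp_X (v : AbsoluteValue K ℝ) {a b : ℝ} (ha : 1 ≤ a) (hb : 1 ≤ b) (i : Fin 2) :
    NMP v a b (X i) (![a, b] i) := by
  have hpos : 0 ≤ ![a, b] i := by
    fin_cases i
    · simpa using zero_le_one.trans ha
    · simpa using zero_le_one.trans hb
  have hc : ∀ α : Fin 2 →₀ ℕ, v (MvPowerSeries.coeff α ((X i : MvPolynomial (Fin 2) K) :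
      MvPowerSeries (Fin 2) K)) * rpw ![a, b] α =
        if α = Finsupp.single i 1 then ![a, b] i else 0 := by
    intro α
    rw [MvPolynomial.coeff_coe, MvPolynomial.coeff_X]
    by_cases hα : α = Finsupp.single i 1
    · subst hα
      simp [rpw_single]
    · rw [if_neg (fun h => hα h.symm), if_neg hα]
      simp
  refine ⟨hpos, ?_, ?_⟩
  · intro _ α
    rw [hc]
    split_ifs
    · exact le_rfl
    · exact hpos
  · intro _ S
    rw [Finset.sum_congr rfl fun α _ => hc α, Finset.sum_ite_eq']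
    split_ifs
    · exact le_rfl
    · exact hpos

end quad

/-- the value of a polynomial in two variables -/
lemma aeval_two {K : Type} [Field K] {A : Type} [CommRing A] [Algebra K A]
    (p : MvPolynomial (Fin 2) K) (dx dc : ℕ)
    (h : ∀ α, coeff α p ≠ 0 → α 0 ≤ dx ∧ α 1 ≤ dc) (x c : A) :
    aeval ![x, c] p = ∑ i ∈ Finset.range (dx + 1), ∑ g ∈ Finset.range (dc + 1),
      algebraMap K A (coeff (Finsupp.single 0 i + Finsupp.single 1 g) p) * (x ^ i * c ^ g) := by
  classical
  rw [aeval_def, eval₂_eq', ← Finset.sum_product']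
  set F : (Fin 2 →₀ ℕ) → A := fun α => algebraMap K A (coeff α p) * (x ^ α 0 * c ^ α 1) with hF
  have h0 : ∑ d ∈ p.support, (algebraMap K A) (coeff d p) * ∏ i, ![x, c] i ^ d i =
      ∑ d ∈ p.support, F d := by
    refine Finset.sum_congr rfl fun d _ => ?_
    simp [hF, Fin.prod_univ_two]
  rw [h0]
  set E : ℕ × ℕ → (Fin 2 →₀ ℕ) := fun a => Finsupp.single 0 a.1 + Finsupp.single 1 a.2 with hE
  have hE0 : ∀ a, E a 0 = a.1 := by intro a; simp [hE]
  have hE1 : ∀ a, E a 1 = a.2 := by intro a; simp [hE]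
  have hinj : Function.Injective E := by
    intro a b hab
    have h1 : E a 0 = E b 0 := by rw [hab]
    have h2 : E a 1 = E b 1 := by rw [hab]
    rw [hE0, hE0] at h1
    rw [hE1, hE1] at h2
    exact Prod.ext h1 h2
  have h1 : ∑ a ∈ Finset.range (dx + 1) ×ˢ Finset.range (dc + 1),
      algebraMap K A (coeff (Finsupp.single 0 a.1 + Finsupp.single 1 a.2) p) *
        (x ^ a.1 * c ^ a.2) =
      ∑ α ∈ (Finset.range (dx + 1) ×ˢ Finset.range (dc + 1)).image E, F α := by
    rw [Finset.sum_image (fun a _ b _ hab => hinj hab)]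
    refine Finset.sum_congr rfl fun a _ => ?_
    simp only [hF]
    rw [hE0, hE1]
  rw [h1]
  apply Finset.sum_subset
  · intro α hα
    have h2 := h α (mem_support_iff.mp hα)
    rw [Finset.mem_image]
    refine ⟨(α 0, α 1), ?_, ?_⟩
    · rw [Finset.mem_product, Finset.mem_range, Finset.mem_range]
      exact ⟨by have := h2.1; simpa using Nat.lt_succ_of_le this,
        by have := h2.2; simpa using Nat.lt_succ_of_le this⟩
    · ext i
      fin_cases i
      · exact hE0 _
      · exact hE1 _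
  · intro α _ hα
    have : coeff α p = 0 := by simpa using hα
    simp [hF, this]

theorem ecoef (h1 : NPSF) (h2 : QAF) (h3 : LAWN) (h4 : EXTR) (h5 : LAWMAP) (h6 : PLD)
    (h7 : PINT) : ECOEF := by
  intro K _ _ W
  obtain ⟨B0, hB0, hL⟩ := h3 K W
  set w : AbsoluteValue K ℝ → ℝ := fun v => cst v 8 * bet W v with hw
  have hwp : PlC w := plc_mul (plc_cst (by norm_num)) ⟨one_le_bet W, FS_log_bet W⟩
  have hBp : PlC (fun v => w v * B0 v) := plc_mul hwp hB0
  obtain ⟨D, hD, hDB⟩ := h6 K _ hBp
  refine ⟨fun v => w v * B0 v, D, hBp, hD, ?_⟩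
  intro e M m l hm
  set β : MvPolynomial (Fin 2) K :=
    Bf (W.map (algebraMap K (MvPolynomial (Fin 2) K))) (X 0) *
      Bf (W.map (algebraMap K (MvPolynomial (Fin 2) K))) (X 1) with hβ
  set xq : QuadraticAlgebra (MvPolynomial (Fin 2) K) β 0 := ⟨X 0, 0⟩ with hxq
  set cq : QuadraticAlgebra (MvPolynomial (Fin 2) K) β 0 := ⟨X 1, 0⟩ with hcq
  set ω : QuadraticAlgebra (MvPolynomial (Fin 2) K) β 0 := ⟨0, 1⟩ with hω
  set f : QuadraticAlgebra (MvPolynomial (Fin 2) K) β 0 :=
    (law (W.map (algebraMap K (QuadraticAlgebra (MvPolynomial (Fin 2) K) β 0))) e l xq cq ω).1 ^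
      (M - m) *
    (law (W.map (algebraMap K (QuadraticAlgebra (MvPolynomial (Fin 2) K) β 0))) e l xq cq ω).2 ^ m
    with hf
  have hNQ : ∀ (v : AbsoluteValue K ℝ) (a b : ℝ), 1 ≤ a → 1 ≤ b →
      NFr v (NQ v (NMP v a b) (w v * a ^ 2 * b ^ 2) β) := by
    intro v a b ha hb
    have hN := nmp_nfr h1 v ha hb
    have hw1 : 1 ≤ w v := hwp.one_le v
    have ha2 : 1 ≤ a ^ 2 := one_le_pow₀ ha
    have hb2 : 1 ≤ b ^ 2 := one_le_pow₀ hb
    apply h2 K v _ (NMP v a b) hN
    · exact one_le_mul_of_one_le_of_one_le (one_le_mul_of_one_le_of_one_le hw1 ha2) hb2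
    · have e1 := bf_le hN W ha (by simpa using nmp_X v ha hb 0)
      have e2 := bf_le hN W hb (by simpa using nmp_X v ha hb 1)
      refine hN.mono _ _ _ (hN.mul _ _ _ _ e1 e2) ?_
      have e3 : (w v * a ^ 2 * b ^ 2) ^ 2 =
          (cst v 8 * (bet W v * a ^ 3)) * (cst v 8 * (bet W v * b ^ 3)) * (a * b) := by
        simp only [hw]; ring
      rw [e3]
      apply le_mul_of_one_le_right
      · have := cst_pos v (c := (8 : ℝ)) (by norm_num)
        have := bet_pos W v
        have : 0 < a := lt_of_lt_of_le one_pos ha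
        have : 0 < b := lt_of_lt_of_le one_pos hb
        positivity
      · exact one_le_mul_of_one_le_of_one_le ha hb
  have hf1 : ∀ (v : AbsoluteValue K ℝ) (a b : ℝ), 1 ≤ a → 1 ≤ b →
      NQ v (NMP v a b) (w v * a ^ 2 * b ^ 2) β f
        ((w v * B0 v ^ (4 ^ e)) ^ M * a ^ (2 * 4 ^ e * M) * b ^ (2 * M)) := by
    intro v a b ha hb
    have hN := nmp_nfr h1 v ha hb
    have hQ := hNQ v a b ha hb
    have hx : NQ v (NMP v a b) (w v * a ^ 2 * b ^ 2) β xq a := by
      refine ⟨a, 0, ?_, nfr_zero hN, ?_, ?_⟩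
      · simpa using nmp_X v ha hb 0
      · intro _; simp only [mul_zero]; exact max_le le_rfl (zero_le_one.trans ha)
      · intro _; simp
    have hc : NQ v (NMP v a b) (w v * a ^ 2 * b ^ 2) β cq b := by
      refine ⟨b, 0, ?_, nfr_zero hN, ?_, ?_⟩
      · simpa using nmp_X v ha hb 1
      · intro _; simp only [mul_zero]; exact max_le le_rfl (zero_le_one.trans hb)
      · intro _; simp
    have hwn : 0 ≤ w v * a ^ 2 * b ^ 2 := by
      have := hwp.one_le v
      positivity
    have ho : NQ v (NMP v a b) (w v * a ^ 2 * b ^ 2) β ω (w v * a ^ 2 * b ^ 2) := by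
      refine ⟨0, 1, nfr_zero hN, nfr_one hN, ?_, ?_⟩
      · intro _; simp only [mul_one]; exact max_le hwn le_rfl
      · intro _; simp
    obtain ⟨g1, g2⟩ := hL v _ _ hQ e l xq cq ω a b (w v) ha hb (hwp.one_le v) hx hc ho
    have g3 := hQ.mul _ _ _ _ (nfr_pow hQ g1 (M - m)) (nfr_pow hQ g2 m)
    rw [← pow_add, Nat.sub_add_cancel hm] at g3
    have e4 : (w v * B0 v ^ (4 ^ e) * a ^ (2 * 4 ^ e) * b ^ 2) ^ M =
        (w v * B0 v ^ (4 ^ e)) ^ M * a ^ (2 * 4 ^ e * M) * b ^ (2 * M) := by
      rw [mul_pow, mul_pow, ← pow_mul, ← pow_mul]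
    rw [e4] at g3
    exact g3
  obtain ⟨e1, e2, e3⟩ := h4 K β f (fun v => (w v * B0 v ^ (4 ^ e)) ^ M) w (2 * 4 ^ e * M) (2 * M)
    hwp.one_le hf1
  have hbd : ∀ v, (w v * B0 v ^ (4 ^ e)) ^ M ≤ (w v * B0 v) ^ (4 ^ e * M) := by
    intro v
    have hw1 : 1 ≤ w v := hwp.one_le v
    have hB1 : 1 ≤ B0 v := hB0.one_le v
    have h40 : (4 : ℕ) ^ e ≠ 0 := by positivity
    rw [pow_mul]
    apply pow_le_pow_left₀
    · positivity
    · rw [mul_pow]
      apply mul_le_mul_of_nonneg_right _ (by positivity)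
      exact le_self_pow₀ hw1 h40
  set G : Fin 2 → ℕ → ℕ → K := fun μ i g =>
    if μ = 0 then coeff (Finsupp.single 0 i + Finsupp.single 1 g) f.re
      else coeff (Finsupp.single 0 i + Finsupp.single 1 g) f.im with hG
  have hG3 : ∀ (v : AbsoluteValue K ℝ) μ i g, v (G μ i g) ≤ (w v * B0 v) ^ (4 ^ e * M) := by
    intro v μ i g
    refine le_trans ?_ (hbd v)
    simp only [hG]
    split_ifs
    · exact (e3 v _).1
    · exact (e3 v _).2
  refine ⟨G, ?_, hG3, ?_, ?_⟩
  · intro μ i g hne
    simp only [hG] at hne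
    split_ifs at hne with hμ
    · have := e1 _ hne
      subst hμ
      simpa using this
    · have hμ1 : μ = 1 := by
        apply Fin.ext
        have h0 : μ.val ≠ 0 := fun h => hμ (Fin.ext h)
        have := μ.isLt
        simp only [Fin.val_one]
        omega
      have := e2 _ hne
      subst hμ1
      simpa using this
  · intro μ i g
    apply h7
    intro v hv
    rw [map_mul, map_pow]
    have h8 := hDB v hv
    have h9 := hG3 v μ i g
    have h10 : 0 ≤ v (D : K) := v.nonneg _
    calc v (D : K) ^ (4 ^ e * M) * v (G μ i g)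
        ≤ v (D : K) ^ (4 ^ e * M) * (w v * B0 v) ^ (4 ^ e * M) :=
          mul_le_mul_of_nonneg_left h9 (pow_nonneg h10 _)
      _ = (v (D : K) * (w v * B0 v)) ^ (4 ^ e * M) := (mul_pow _ _ _).symm
      _ ≤ 1 := by
          apply pow_le_one₀ _ h8
          have := hwp.one_le v
          have := hB0.one_le v
          positivity
  · intro A _ _ x c η hη
    have hβe : aeval ![x, c] β = η ^ 2 := by
      rw [hη, hβ, map_mul]
      have hBf : ∀ (y : MvPolynomial (Fin 2) K),
          aeval ![x, c] (Bf (W.map (algebraMap K (MvPolynomial (Fin 2) K))) y) =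
            Bf (W.map (algebraMap K A)) (aeval ![x, c] y) := by
        intro y
        simp [Bf]
      rw [hBf, hBf]
      simp
    let φ : QuadraticAlgebra (MvPolynomial (Fin 2) K) β 0 →+* A :=
      { toFun := fun z => aeval ![x, c] z.re + η * aeval ![x, c] z.im
        map_one' := by
          rw [QuadraticAlgebra.re_one, QuadraticAlgebra.im_one]
          simp
        map_mul' := by
          intro y z
          rw [QuadraticAlgebra.re_mul, QuadraticAlgebra.im_mul]
          simp only [map_add, map_mul, hβe, map_zero]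
          ring
        map_zero' := by
          rw [QuadraticAlgebra.re_zero, QuadraticAlgebra.im_zero]
          simp
        map_add' := by
          intro y z
          rw [QuadraticAlgebra.re_add, QuadraticAlgebra.im_add]
          simp only [map_add]
          ring }
    have hφ : ∀ z, φ z = aeval ![x, c] z.re + η * aeval ![x, c] z.im := fun z => rfl
    have hφx : φ xq = x := by rw [hφ]; simp [hxq]
    have hφc : φ cq = c := by rw [hφ]; simp [hcq]
    have hφω : φ ω = η := by rw [hφ]; simp [hω]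
    have hφa : φ.comp (algebraMap K (QuadraticAlgebra (MvPolynomial (Fin 2) K) β 0)) =
        algebraMap K A := by
      ext k
      rw [RingHom.comp_apply, hφ]
      have e5 : (algebraMap K (QuadraticAlgebra (MvPolynomial (Fin 2) K) β 0) k).re =
          algebraMap K (MvPolynomial (Fin 2) K) k := rfl
      have e6 : (algebraMap K (QuadraticAlgebra (MvPolynomial (Fin 2) K) β 0) k).im = 0 := rfl
      rw [e5, e6, map_zero, mul_zero, add_zero, AlgHom.commutes]
    have h11 := (h5 _ _ φ (W.map (algebraMap K (QuadraticAlgebra (MvPolynomial (Fin 2) K) β 0)))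
      e).2 l xq cq ω
    rw [hφx, hφc, hφω, WeierstrassCurve.map_map, hφa] at h11
    rw [h11]
    simp only
    rw [← map_pow, ← map_pow, ← map_mul, ← hf, hφ]
    rw [aeval_two f.re (2 * 4 ^ e * M) (2 * M) e1,
      aeval_two f.im (2 * 4 ^ e * M) (2 * M) (fun α hα => by
        have := e2 α hα
        omega)]
    rw [Fin.sum_univ_two]
    congr 1
    · refine Finset.sum_congr rfl fun i _ => Finset.sum_congr rfl fun g _ => ?_
      simp [hG]
    · rw [Finset.mul_sum]
      refine Finset.sum_congr rfl fun i _ => ?_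
      rw [Finset.mul_sum]
      refine Finset.sum_congr rfl fun g _ => ?_
      simp only [hG, Fin.isValue, one_ne_zero, if_false, Fin.val_one, pow_one]
      ring

end

end Pool.Agent.Helper12.SGB
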