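import Pool.Agent.Helper12.SGB.RPOL
import Pool.Agent.Helper12.SGB.ECOEF
import Pool.Agent.Helper13.SGB.PLD
import Pool.Agent.Helper24.SGB.ELAW
import Pool.Agent.Helper24.SGB.LAWMAP
import Pool.Agent.Helper27.SGB.QAF
import Pool.Agent.Helper30.SGB.EDUP
import Pool.Agent.Helper35.SGB.EXTR
import Pool.Agent.Helper35.SGB.LAWN
import Pool.Agent.Helper35.SGB.NPSF
import Pool.Agent.Helper59.SGB.EUP
import Pool.Agent.Helper62.SGB.EPHI
import Pool.Agent.Helper77.SGB.ELOC
import Pool.Agent.Helper83.SGB.PINT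
import Pool.Agent.Helper87.SGB.EUTS

/-!
# Project SG (MP_a41896_nt), module B: all goals of `Pool/Agent/Helper42/SG/GoalsB.lean` are theorems
-/

set_option autoImplicit false

namespace Pool.Agent.Helper12.SGB

open Pool.Agent.Helper42.SG

theorem th_RPOL : RPOL := rpol

theorem th_EDUP : EDUP := Pool.Agent.Helper30.SGB.edup

theorem th_ELAW : ELAW := Pool.Agent.Helper24.SGB.elaw th_EDUP th_RPOL

theorem th_EPHI : EPHI := Pool.Agent.Helper62.SGB.ephi

theorem th_EUTS : EUTS := Pool.Agent.Helper87.SGB.euts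

theorem th_ELOC : ELOC := Pool.Agent.Helper77.SGB.eloc th_ELAW th_EPHI th_EUTS

theorem th_EUP : EUP := Pool.Agent.Helper59.SGB.eup

theorem th_ECOEF : ECOEF :=
  ecoef Pool.Agent.Helper35.SGB.npsf Pool.Agent.Helper27.SGB.qaf Pool.Agent.Helper35.SGB.lawn
    Pool.Agent.Helper35.SGB.extr Pool.Agent.Helper24.SGB.lawmap Pool.Agent.Helper13.SGB.pld
    Pool.Agent.Helper83.SGB.pint

end Pool.Agent.Helper12.SGB
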