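import Pool.Agent.Helper42.SG.GoalsB

set_option autoImplicit false

namespace Pool.Agent.Helper12.SGB

open WeierstrassCurve Height
open Pool.Agent.Helper29.BL Pool.Agent.Helper92.Ru Pool.Agent.Helper42.SG

theorem bh_dup {R : Type} [CommRing R] (W : WeierstrassCurve R) (t z : R) :
    Bh W (Ah W t z) (Bh W t z) = Ch W t z ^ 2 * Bh W t z := by
  simp only [Ah, Bh, Ch]
  linear_combination ((-52)*t^11*z^5 + (-45)*W.b₂*t^10*z^6 + (-138)*W.b₄*t^9*z^7 + (-12)*W.b₂^2*t^9*z^7 + (-165)*W.b₆*t^8*z^8 + (-68)*W.b₂*W.b₄*t^8*z^8 + (-1)*W.b₂^3*t^8*z^8 + (-88)*W.b₈*t^7*z^9 + (-88)*W.b₄^2*t^7*z^9 + (-74)*W.b₂*W.b₆*t^7*z^9 + (-8)*W.b₂^2*W.b₄*t^7*z^9 + (-168)*W.b₄*W.b₆*t^6*z^10 + (-38)*W.b₂*W.b₈*t^6*z^10 + (-20)*W.b₂*W.b₄^2*t^6*z^10 + (-8)*W.b₂^2*W.b₆*t^6*z^10 + (-66)*W.b₆^2*t^5*z^11 + (-76)*W.b₄*W.b₈*t^5*z^11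 + (-16)*W.b₄^3*t^5*z^11 + (-36)*W.b₂*W.b₄*W.b₆*t^5*z^11 + (-4)*W.b₂^2*W.b₈*t^5*z^11 + (-46)*W.b₆*W.b₈*t^4*z^12 + (-40)*W.b₄^2*W.b₆*t^4*z^12 + (-14)*W.b₂*W.b₆^2*t^4*z^12 + (-16)*W.b₂*W.b₄*W.b₈*t^4*z^12 + (-4)*W.b₈^2*t^3*z^13 + (-30)*W.b₄*W.b₆^2*t^3*z^13 + (-16)*W.b₄^2*W.b₈*t^3*z^13 + (-10)*W.b₂*W.b₆*W.b₈*t^3*z^13 + (-7)*W.b₆^3*t^2*z^14 + (-20)*W.b₄*W.b₆*W.b₈*t^2*z^14 + (-1)*W.b₂*W.b₈^2*t^2*z^14 + (-6)*W.b₆^2*W.b₈*t*z^15 + (-2)*W.b₄*W.b₈^2*t*z^15 + (-1)*W.b₆*W.b₈^2*z^16) * W.b_relation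

theorem tus {R : Type} [CommRing R] (W : WeierstrassCurve R) (c t z : R) :
    Th W c t z ^ 2 - 4 * Uh c t z * Sh W c t z = Bh W t z * Bf W c := by
  simp only [Th, Uh, Sh, Bh, Bf]
  linear_combination (t ^ 2 * z ^ 2 - 2 * t * z ^ 3 * c + z ^ 4 * c ^ 2) * W.b_relation

theorem rr_sq {R : Type} [CommRing R] (W : WeierstrassCurve R) (e : ℕ) (x : R) :
    Rr W e x ^ 2 * Bf W x = Bh W (Ph W e x).1 (Ph W e x).2 := by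
  induction e with
  | zero => simp only [Rr, Ph, Bf, Bh]; ring
  | succ e ih =>
    simp only [Rr, Ph]
    rw [bh_dup, ← ih]; ring

theorem rpol : RPOL := by
  intro R _ W
  refine ⟨bh_dup W, rr_sq W, ?_⟩
  intro e x c η hη
  have h1 := tus W c (Ph W e x).1 (Ph W e x).2
  have h2 := rr_sq W e x
  simp only [law]
  simp only [Bool.false_eq_true, if_false, if_true]
  linear_combination (-1) * h1 + Rr W e x ^ 2 * hη + Bf W c * h2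

end Pool.Agent.Helper12.SGB
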